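import Pool.Agent.Helper16_XQ.StmtG
import Pool.Agent.Helper25_AEU.LX
import Pool.Agent.Helper69_AEU.Tools
import Pool.Agent.Helper69_AEU.Lam
import Pool.Agent.Helper72_AEU.ACT

/-! Squad XQ, Part G, module LCX. -/

set_option autoImplicit false

namespace Pool.Agent.XQ

open MeasureTheory Complex Filter Topology Pool.Agent.H62T
open Pool.Agent.H16F (Sublin)
open Pool.Agent.AEU

theorem lcx : LcxStatement := by
  have hact : ActStatement := AEU.H72.act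
  have hmix : MixStatement := AEU.H69.mixS
  have hopn : OpnStatement := AEU.H69.opn hact
  intro P Q L henv h₀ h sub₀ sub f₀ f l₀ l c3 hv
  set c := touch P h₀ ∩ touch P h with hc
  have hcP : c ⊆ P := fun s hs => AEU.H25.touch_sub P h₀ (Finset.mem_inter.1 hs).1
  obtain ⟨S, hSc, hS3⟩ := Finset.exists_subset_card_eq c3
  obtain ⟨hm1, hm2, _⟩ := hmix P
  -- all bodies of the path are special and short
  have key : ∀ τ : ℝ, 0 ≤ τ → τ < 1 → Fits P (mix τ h₀ h) ∧ c ⊆ touch P (mix τ h₀ h) ∧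
      Special P (mix τ h₀ h) ∧ lam (mix τ h₀ h) < L := by
    intro τ h0 h1
    obtain ⟨m1, m2, m3, m4⟩ := hm1 h₀ h sub₀ sub τ h0 h1.le
    obtain ⟨m5, m6, _⟩ := m4 f₀ f
    refine ⟨m5, m6, ⟨m1, m5, c3.trans (Finset.card_le_card m6), ?_⟩, ?_⟩
    · rcases hv with ⟨v, hv1, hv2, hv3⟩ | h4
      · exact Or.inl ⟨v, hv1, m3 v hv2 hv3⟩
      · exact Or.inr (h4.trans (Finset.card_le_card m6))
    · rw [m2]
      nlinarith
  have hmat : ∀ τ : ℝ, 0 ≤ τ → τ < 1 → ∃ g, Mat P Q g (mix τ h₀ h) := fun τ h0 h1 =>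
    henv.all _ (key τ h0 h1).2.2.1 (key τ h0 h1).2.2.2
  obtain ⟨g, hg⟩ := hmat 0 le_rfl one_pos
  -- uniqueness
  have huq : ∀ τ : ℝ, 0 ≤ τ → τ < 1 → ∀ g₁ g₂, Mat P Q g₁ (mix τ h₀ h) →
      Mat P Q g₂ (mix τ h₀ h) → g₁ = g₂ := by
    intro τ h0 h1 g₁ g₂ k1 k2
    obtain ⟨a1, a2, a3, a4⟩ := key τ h0 h1
    have hSt : S ⊆ touch P (mix τ h₀ h) := hSc.trans a2
    exact henv.uq g₁ g₂ S _ ⟨hS3, a3.sub, a1, k1.fits', hSt, fun s hs => k1.mem s (hSt hs)⟩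
      ⟨hS3, a3.sub, a1, k2.fits', hSt, fun s hs => k2.mem s (hSt hs)⟩ a4
  have hgc : ∀ s ∈ c, mv g s ∈ Q := fun s hs => hg.mem s ((key 0 le_rfl one_pos).2.1 hs)
  -- all parameters below one
  have hall' : ∀ b : ℝ, 0 ≤ b → b < 1 → Set.Icc 0 b ⊆ {τ | Mat P Q g (mix τ h₀ h)} := by
    intro b hb0 hb1
    refine IsClosed.Icc_subset_of_forall_exists_gt ?_ hg ?_
    · -- closed
      rw [← closure_subset_iff_isClosed]
      intro τ hτ
      have hτI : τ ∈ Set.Icc (0 : ℝ) b := by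
        have := closure_mono Set.inter_subset_right hτ
        rwa [isClosed_Icc.closure_eq] at this
      refine ⟨?_, hτI⟩
      obtain ⟨g₁, hg₁⟩ := hmat τ hτI.1 (hτI.2.trans_lt hb1)
      have hnear := AEU.H25.mat_near hact hopn hg₁
      obtain ⟨τ', hτ', hτ''⟩ := mem_closure_iff_frequently.1 hτ |>.and_eventually hnear |>.exists
      have h1 : Mat P Q g₁ (mix τ' h₀ h) := hτ'' (key τ' hτ'.2.1 (hτ'.2.2.trans_lt hb1)).1
      have h2 : g₁ = g := huq τ' hτ'.2.1 (hτ'.2.2.trans_lt hb1) g₁ g h1 hτ'.1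
      show Mat P Q g (mix τ h₀ h)
      rw [← h2]; exact hg₁
    · intro τ hτ y hy
      have hnear := AEU.H25.mat_near hact hopn hτ.1
      have h1 : ∀ᶠ τ' in 𝓝[>] τ, Fits P (mix τ' h₀ h) → Mat P Q g (mix τ' h₀ h) :=
        hnear.filter_mono nhdsWithin_le_nhds
      have h2 : ∀ᶠ τ' in 𝓝[>] τ, τ' ∈ Set.Ioc τ (min y b) :=
        Ioc_mem_nhdsGT (lt_min hy hτ.2.2)
      obtain ⟨τ', k1, k2⟩ := (h1.and h2).exists
      refine ⟨τ', ?_, k2.1, k2.2.trans (min_le_left _ _)⟩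
      exact k1 (key τ' (hτ.2.1.trans k2.1.le) ((k2.2.trans (min_le_right _ _)).trans_lt hb1)).1
  refine ⟨g, ?_, ?_, hgc⟩
  · have := hg; rwa [(hm2 h₀ h).1] at this
  · have hmx := hact.2.2.2.2.2.2.2.2.2.2.2.1
    have hcl := AEU.H25.closed_fits Q (mb g h₀) (mb g h)
    have h1 : (1 : ℝ) ∈ {τ : ℝ | Fits Q (mix τ (mb g h₀) (mb g h))} := by
      have hsub : Set.Ico (0 : ℝ) 1 ⊆ {τ : ℝ | Fits Q (mix τ (mb g h₀) (mb g h))} := by
        intro τ hτ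
        have := (hall' τ hτ.1 hτ.2 ⟨hτ.1, le_rfl⟩ : Mat P Q g (mix τ h₀ h)).fits'
        rwa [hmx] at this
      have := hcl.closure_subset_iff.2 hsub
      rw [closure_Ico (by norm_num)] at this
      exact this ⟨zero_le_one, le_rfl⟩
    have h2 : Fits Q (mix 1 (mb g h₀) (mb g h)) := h1
    obtain ⟨_, k2, _⟩ := hmix Q
    rwa [(k2 _ _).2] at h2

end Pool.Agent.XQ
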